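import Pool.Agent.H80.Ib7

set_option autoImplicit false

open Pool.Agent.H80.Ib
open scoped Pointwise

theorem Pool.Agent.Results.MP_937656_gt.NoPolytope.result (n : ℕ) (hn : 5 ≤ n)
    (S : Finset (EuclideanSpace ℝ (Fin n))) (K : Set (EuclideanSpace ℝ (Fin n)))
    (hK : K = convexHull ℝ (S : Set (EuclideanSpace ℝ (Fin n)))) (hs : K = -K)
    (hi : (interior K).Nonempty) (hI : IsIntersectionBody K) :
    ∃ (m : ℕ) (v : Fin m → EuclideanSpace ℝ (Fin n)),
      Submodule.span ℝ (Set.range v) = ⊤ ∧ K = polar (zonotope v) := by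
  subst hK
  exact Pool.Agent.H80.Ib.main (by simpa using hn) S hs hi hI
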